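import Pool.Agent.K9h48.MG.Ends

/-!
# Online matrix-vector multiplication over `ZMod 2` with memory computed modulo an odd number

An algorithm may rewrite its whole memory between two vectors, free of charge and with full
knowledge of the matrix, the coins and the earlier vectors; only probes count. The programs know the
earlier vectors and the earlier answers without probing. There are at most `n ^ C` bits of memory.
For given coins and earlier vectors each of them is computed by a gate modulo `m` (an arbitrary
function of a sum modulo `m`, where `m` is odd, not necessarily a prime) on top of `n ^ C` circuits
of size `n ^ C` and depth `d` (AND, OR of unbounded fan-in, NOT), from the `n * n` bits of the matrix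
(its entries, or its bits in other coordinates: `n` linearly independent linear forms of every row
of `G * M`) and from `e` arbitrary bits of side information about the matrix, `2 ^ e <= n ^ C`
(`ModDepthSize`). Then at least `γ n ^ (3 - ε)` bits are probed for large `n`, if each answer is
right with probability `γ ≥ n ^ (- C)`. So the statement of Q1 holds for such algorithms, with
errors. For even `m` such gates compute the entries of the product of `M` with a given vector.

Proof. By an inequality of Bourgain and of Green, Roy and Straubing (proved here, `corr`) a function
of degree `D` modulo `m` is nearly uncorrelated with each parity of many bits, with an error which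
decreases exponentially in the number of these bits, and the same holds after a restriction
of the values of some other functions of this kind and of parities, as long as no combination of the
parities has few terms. Hence the conditions along a path of the program with few probes, together
with all earlier answers, give almost no information on the signs `(-1) ^ (Rᵀ M v)`, `R` a vector with
many ones, and the next answer is right with probability about `2 ^ (- n / 2)` only
(`Pool.Agent.K9h48.MG.poly_bound`, for cells which are arbitrary functions of few polynomials of
low degree modulo `m`). A random restriction turns all the circuits into decision trees of constant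
depth, while `n ^ (1 - δ)` entries of each row survive.

The definitions are in `Pool/Agent/K9h48/MG/Model.lean` (`Alg`, `cost`, `Solves`, `Right`,
`ModDepthSize`), `Pool/Agent/TH163/AC2/Model.lean` (`coord`), `Pool/Agent/H699R2/OMV/Model.lean`
(`Prog`, `before`, `IsProb`, `avg`) and `Pool/Agent/H568R2/Defs.lean` (`Circuit`).
-/

set_option autoImplicit false

namespace Pool.Agent.Results.MP_0f1f76_lc.ModularMemory

open Pool.Agent.K9h48.MG (Alg)
open Pool.Agent.H699R2.OMV (IsProb)

/-- **Main theorem.** Let `m` be odd. If there are at most `n ^ C` bits of memory, each computed by a
gate modulo `m` on top of `n ^ C` circuits of size `n ^ C` and depth `d`, then for large `n` the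
expected total number of probed bits on a random matrix and a random stream of `n` vectors is at
least `γ n ^ (3 - ε)`. `Solves`: each single answer is right with probability at least `γ` on every
input; `Right`: each single answer is right with probability at least `γ` on a random input. -/
theorem result (m : ℕ) (hm : Odd m) (d C : ℕ) (ε : ℝ) (hε : 0 < ε) : ∃ N0 : ℕ, ∀ n : ℕ, N0 ≤ n →
    ∀ (Ω A : Type) [Fintype Ω] [Fintype A] (w e : ℕ), 1 ≤ w →
    ∀ (alg : Alg n Ω A (Fin w → Bool)) (μ : Ω → ℝ), IsProb μ → ∀ γ : ℝ,
      Fintype.card A * w ≤ n ^ C → 2 ^ e ≤ n ^ C → 1 / (n : ℝ) ^ C ≤ γ →
      alg.ModDepthSize m d (n ^ C) e → (alg.Solves μ γ ∨ alg.Right μ γ) →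
      γ * (n : ℝ) ^ (3 - ε) ≤ w * alg.cost μ := by
  obtain ⟨N0, hN⟩ := Pool.Agent.K9h48.MG.circ_bound m hm d C ε hε
  exact ⟨N0, fun n hn Ω A _ _ w e hw alg μ hμ γ hA he hγ hMD hs =>
    hN n hn Ω A w e hw alg μ hμ γ hA he hγ hMD hs⟩

end Pool.Agent.Results.MP_0f1f76_lc.ModularMemory
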