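import Pool.Agent.K9h48.AP.Fin1

/-!
# Online matrix-vector multiplication over `ZMod 2` with memory computed by `AC0[p]` circuits

An algorithm may rewrite its whole memory between two vectors, free of charge and with full
knowledge of the matrix, the coins and the earlier vectors; only probes count. For given coins and
earlier vectors, every bit of the memory is computed from the entries of the matrix and `e`
arbitrary bits of side information by a circuit of depth `d` with at most `s` gates AND and OR
(unbounded fan-in) and any number of negations and gates modulo `p`, where `p` is an odd prime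
number; its inputs may be any Boolean functions of degree at most `k` over `ZMod p` (for instance
functions of `k` entries). Then

`T ≥ γ n (√|v_1| + ... + √|v_n|) / (1024 m k ((p - 1) (log s + 4)) ^ d w)`,

where `T` is the expected total number of probes of cells of `w` bits for the fixed stream
`v_1, ..., v_n` and a random matrix, `|v|` the number of ones of `v`, and `γ`, the probability
that an answer is right, may be exponentially small; `m` is about `e / 2` plus half of the logarithm
of the number of bits of the memory divided by `γ`. This is `n ^ (5 / 2)` up to a factor of
polylogarithmic size for vectors with `n / 2` ones, `s` quasipolynomial, `k`, `e`, `w`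
polylogarithmic. The vectors may be known during the preprocessing. For `p = 2` the
entries of the product of `M` with a given vector would be computed by one gate.

Proof. All bits of the memory agree with functions of degree `2 m k ((p - 1) (log s + 4)) ^ d` over
`ZMod p` for nearly all matrices (Razborov, Smolensky; `amplify` of the starting library
`Pool/Agent/W856`). A program with `t` probes gives functions of degree `w t` times larger which are
equal to the product of the signs `(-1) ^ (M v) r`, `r ∈ R`, for all sets `R` of rows, on the
set `S` of all matrices for which the answer is right. Smolensky's argument for the `n` rows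
at once (`tA2`) bounds `S` by the number of sets of entries which have few elements in excess of
`|v| / 2` in the rows in total, and if this is `o (n √|v|)`, this is exponentially small in `n`
(`tA3`, `tA4`).

The definitions are in `Pool/Agent/K9h48/AP/Model.lean` (`entries`, `Alg`, `mean`, `ones`, `ans`,
`len`, `cost`, `Right`, `CircuitMem`), `Pool/Agent/W856/CornerDefs.lean` (`V`, `HasDegree`,
`Circuit`, `Computed`) and `Pool/Agent/H699R2/OMV/Model.lean` (`Prog`, `Vec`, `Mat`, `before`,
`IsProb`).
-/

set_option autoImplicit false

namespace Pool.Agent.Results.MP_0f1f76_lc.PrimeCircuitMemory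

open Pool.Agent.K9h48.AP (Alg ones)
open Pool.Agent.H699R2.OMV (Vec IsProb)

/-- **Main theorem.** `alg.CircuitMem p k s d e`: the memory is computed by circuits as above;
`alg.Right μ vs γ`: each single answer for the stream `vs` is right with probability at least `γ`
for a random matrix; `alg.cost μ vs`: the expected total number of probes for the stream `vs`
and a random matrix; `Nat.clog 2 s`: the least `l` with `s ≤ 2 ^ l`. -/
theorem result (p : ℕ) (hp : p.Prime) (hp2 : p ≠ 2) (n w k s d e m : ℕ) (hk : 1 ≤ k) (hw : 1 ≤ w)
    (hm : 1 ≤ m) (Ω A : Type) [Fintype Ω] [Fintype A] (alg : Alg n Ω A w)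
    (hC : alg.CircuitMem p k s d e) (μ : Ω → ℝ) (hμ : IsProb μ) (vs : Fin n → Vec n) (γ : ℝ)
    (hγ : 0 ≤ γ) (h1 : 4 * 2 ^ e * ((Fintype.card A : ℝ) * w) ≤ γ * 4 ^ m)
    (h2 : 4 * 2 ^ e ≤ γ * 2 ^ (n / 8)) (hR : alg.Right μ vs γ) :
    γ * (n * ∑ q, √(ones (vs q) : ℝ)) ≤
      1024 * m * ((k * ((p - 1) * (Nat.clog 2 s + 4)) ^ d : ℕ) : ℝ) * (w * alg.cost μ vs) :=
  Pool.Agent.K9h48.AP.main1 hp hp2 hk hw alg hC μ hμ vs m hm γ hγ h1 h2 hR

end Pool.Agent.Results.MP_0f1f76_lc.PrimeCircuitMemory
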