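import Pool.Agent.K9h48.AP.Fin3

/-!
# Online matrix-vector multiplication over `ZMod 2`: `AC0[p]` memory and small error probability

An algorithm may rewrite its whole memory between two vectors, free of charge and with full
knowledge of the matrix, the coins and the earlier vectors; only probes count. For given coins and
earlier vectors, every bit of the memory (any number of cells of `w` bits) is computed from the
entries of the matrix by a circuit of depth `d` with at most `s` gates AND and OR (unbounded
fan-in) and any number of negations and gates modulo `p`, where `p` is an odd prime number; its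
inputs may be any Boolean functions of degree at most `k` over `ZMod p`. Each answer is right with
probability at least `γ`, wrong with probability at most `δ`, and may be omitted otherwise. Let
`M = k ((p - 1) (log (n ^ 2 s + 1) + 4)) ^ (d + 1)` and `0 < r ≤ 1 / (80 M)`. If
`16 (n ^ 2 + 1) ≤ γ exp (r n / (4 M))` and `4 (n ^ 2 + 1) exp (24 (r n) ^ 2) δ ≤ γ`, then

`T ≥ γ r n (|v_1| + ... + |v_n|) / (10 M w)`

for the expected total number `T` of probes for the fixed stream `v_1, ..., v_n` and a random matrix,
`|v|` the number of ones of `v`. So `T` is at least `n ^ 3` up to a polylogarithmic factor, for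
vectors with `n / 2` ones and `M`, `w`, `1 / γ` polylogarithmic, if no answer is ever wrong
(`δ = 0`) or if `δ = exp (- n ^ 2 / polylog n)`, and at least `n ^ 2 √u` for
`δ = exp (- u)`. The vectors may be known during the preprocessing.

Proof. Let `F` be the set of all matrices for which the program follows a given path; it is computed
by a circuit of depth `d + 1`. For given values of the entries which are multiplied by zero, the
answer determines the parity of the remaining `N = n |v|` entries. A function of degree less
than `N / 2` over `ZMod p` which is supported on points of one parity is zero (`tB1`). There is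
such a function which is not zero on most of `F`, supported on the points of `F` where the answer
is right, unless `F` is small (`exp (24 r ^ 2 N)` times as large as the set where the answer is
wrong plus `2 ^ N exp (- r N / M)`, `c4`): one takes a product of an approximation of `F` of degree
`r N` and a function of degree `N / 2 - r N` which vanishes where the approximation or the answer
is wrong (`exists_vanish` and `amplify` of the starting library `Pool/Agent/W856`).

The definitions are in `Pool/Agent/K9h48/AP/Model.lean` (`entries`, `Alg`, `mean`, `ones`, `ans`,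
`len`, `cost`, `Right`, `Wrong`, `ComputedMem`), `Pool/Agent/W856/CornerDefs.lean` (`V`,
`HasDegree`, `Circuit`, `Computed`) and `Pool/Agent/H699R2/OMV/Model.lean` (`Prog`, `Vec`, `Mat`,
`before`, `IsProb`).
-/

set_option autoImplicit false

namespace Pool.Agent.Results.MP_0f1f76_lc.PrimeCircuitSmallError

open Pool.Agent.K9h48.AP (Alg ones)
open Pool.Agent.H699R2.OMV (Vec IsProb)

/-- **Main theorem.** `alg.ComputedMem p k s d`: the memory is computed by circuits as above;
`alg.Right μ vs γ`, `alg.Wrong μ vs δ`: each single answer for the stream `vs` is right with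
probability at least `γ`, wrong with probability at most `δ`, for a random matrix;
`alg.cost μ vs`: the expected total number of probes for the stream `vs` and a random
matrix; `Nat.clog 2 x`: the least `l` with `x ≤ 2 ^ l`. -/
theorem result (p : ℕ) (hp : p.Prime) (hp2 : p ≠ 2) (n w k s d M : ℕ) (hk : 1 ≤ k) (hw : 1 ≤ w)
    (hM : M = k * ((p - 1) * (Nat.clog 2 (n * n * s + 1) + 4)) ^ (d + 1))
    (Ω A : Type) [Fintype Ω] (alg : Alg n Ω A w) (hC : alg.ComputedMem p k s d)
    (μ : Ω → ℝ) (hμ : IsProb μ) (vs : Fin n → Vec n) (γ δ r : ℝ) (hγ : 0 ≤ γ) (hδ : 0 ≤ δ)
    (hr0 : 0 < r) (hr : 80 * (r * M) ≤ 1)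
    (h1 : 16 * ((n : ℝ) ^ 2 + 1) ≤ γ * Real.exp (r * n / (4 * M)))
    (h2 : 4 * ((n : ℝ) ^ 2 + 1) * Real.exp (24 * (r * n) ^ 2) * δ ≤ γ)
    (hR : alg.Right μ vs γ) (hW : alg.Wrong μ vs δ) :
    γ * (r * (n * ∑ q, (ones (vs q) : ℝ))) ≤ 10 * M * (w * alg.cost μ vs) := by
  subst hM
  exact Pool.Agent.K9h48.AP.main3 hp hp2 hk hw alg hC μ hμ vs γ δ r hγ hδ hr0 hr h1 h2 hR hW

end Pool.Agent.Results.MP_0f1f76_lc.PrimeCircuitSmallError
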