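import Pool.Agent.K9h49.SM.Main

set_option autoImplicit false

/-!
# Online matrix-vector multiplication over `ZMod 2` with `n ^ 2 + r` bits of memory

The cell-probe model of the starting library (`Pool/Agent/H699R2/OMV/Model.lean`): between two
vectors the memory may be rewritten completely, free of charge and with full knowledge of the
matrix, of the earlier vectors and of the coins, so the matrix may be stored in any encoding; only
probes count; the programs know the earlier vectors and the coins without probing. Nothing is
assumed about the contents of the cells or about the addresses of the probes. The only restriction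
is the size of the memory: `|A|` cells of `w` bits with `|A| * w ≤ n ^ 2 + r`. (At least
`n ^ 2 - 10` bits are necessary.)

The total number of probes on a random matrix and a random stream of `n` vectors is at least
`n ^ 3 / (10 ^ 6 * √(w * (r + w)) * log₂ (r + 2))` on average, if the probability that some answer
is wrong is at most `1 / 3` (as in the problem). So for words of `O(log n)` bits an algorithm with
total time `O(n ^ (3 - ε))` needs at least `n ^ 2 + n ^ (2 * ε - o(1))` bits of memory, and with
`n ^ 2 + n ^ (o(1))` bits the time is `n ^ (3 - o(1))`.

Proof. The cells are divided into blocks of `k = O(r / w + 1)` cells. Suppose that only `τ` cells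
of a block `J` are probed on average. Given the contents outside `J` and coins and earlier vectors,
the pairs (matrix, vector) are divided into rectangles by the set of the probed cells in `J` and
their contents. As there are only `k ^ O(τ)` sets of `O(τ)` cells, a typical rectangle contains
`2 ^ n / k ^ O(τ)` vectors, so all (or a constant fraction of) its matrices agree on a subspace of
codimension `b = O(τ log k + 1)`, and are determined by the answers to `b` further typical vectors,
that is, by the contents of `O(τ b)` cells of `J`. But a typical rectangle has `2 ^ Ω(k w)` matrices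
since the encoding has only `r` redundant bits. So `τ ^ 2 = Ω(k / log k)` up to a factor `log k`.
The errors are treated with the first wrong answer: on average over the steps it has probability
at most `1 / (3 n)`, so a constant fraction of the matrices has no errors on the at most `n` vectors
of a basis. See `Pool/Agent/K9h49/SM/`: `Rect` (one rectangle), `Static`, `Static2` (one step),
`Dyn` (all steps), `Fin`, `Main` (blocks and numbers).
-/

namespace Pool.Agent.Results.MP_0f1f76_lc.SuccinctMemory

open Pool.Agent.H699R2.OMV

open Classical in
/-- Let `n ≥ 10 ^ 4`, `w ≥ 1` and `32 (r + w) ≤ n ^ 2`. Consider a randomised algorithm for online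
multiplication of an `n × n` matrix with `n` vectors over the field with two elements, whose memory
consists of at most `(n ^ 2 + r) / w` cells with contents in a set `W` with at most `2 ^ w` elements.
If on every input the probability that some answer is wrong is at most `1 / 3`, or if this
probability is at most `1 / 3` for a uniformly random input, then for a uniformly random input the
expected total number of probes is at least
`n ^ 3 / (10 ^ 6 * √(w * (r + w)) * log₂ (r + 2))`. -/
theorem result {n w r : ℕ} (hn : 10 ^ 4 ≤ n) (hw : 1 ≤ w) (hr : 32 * (r + w) ≤ n ^ 2)
    {Ω A W : Type} [Fintype Ω] [Fintype A] [Fintype W] [Nonempty W]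
    (hW : Fintype.card W ≤ 2 ^ w) (hA : Fintype.card A * w ≤ n ^ 2 + r)
    (alg : Alg n Ω A W) (μ : Ω → ℝ) (hμ : IsProb μ)
    (hs : alg.Solves μ ∨ avg (fun M vs => ∑ ω ∈ Finset.univ.filter
      (fun ω => ∃ q, alg.answer ω M vs q ≠ M.mulVec (vs q)), μ ω) ≤ 1 / 3) :
    (n : ℝ) ^ 3 ≤ 10 ^ 6 * (√(w * (r + w)) * Real.logb 2 (r + 2)) *
      avg (fun M vs => ∑ ω, μ ω * ∑ q, ((alg.probes ω M vs q).length : ℝ)) := by
  apply Pool.Agent.K9h49.SM.main n w r hn hw hr hW hA alg μ hμ
  have h1 : avg (fun M vs => ∑ ω ∈ Finset.univ.filter
      (fun ω => ∃ q, alg.answer ω M vs q ≠ M.mulVec (vs q)), μ ω) ≤ 1 / 3 := by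
    rcases hs with hs | hs
    · unfold avg
      have hc : (0 : ℝ) < (Fintype.card (Mat n) : ℝ) * (Fintype.card (Fin n → Vec n) : ℝ) := by
        have h1 : (0 : ℝ) < (Fintype.card (Mat n) : ℝ) := by exact_mod_cast Fintype.card_pos
        have h2 : (0 : ℝ) < (Fintype.card (Fin n → Vec n) : ℝ) := by
          exact_mod_cast Fintype.card_pos
        positivity
      rw [div_le_iff₀ hc]
      calc _ ≤ ∑ _M : Mat n, ∑ _vs : Fin n → Vec n, (1 / 3 : ℝ) :=
            Finset.sum_le_sum (fun M _ => Finset.sum_le_sum (fun vs _ => hs M vs))
        _ = _ := by
            simp only [Finset.sum_const, Finset.card_univ, nsmul_eq_mul]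
            ring
    · exact hs
  refine le_trans (le_of_eq ?_) h1
  congr 1
  funext M vs
  rw [Finset.sum_filter]
  apply Finset.sum_congr rfl
  intro ω _
  rw [mul_ite, mul_one, mul_zero]

end Pool.Agent.Results.MP_0f1f76_lc.SuccinctMemory
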